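import Mathlib
import Pool.Agent.Helper15.UH.Goals

/-!
# Packet CYC (MP_ba83fc_ag): evaluation of a 4-cocycle on four commuting elements
-/

namespace UnrCoh

namespace CycPacket

/-- uniform local constancy on a compact group -/
theorem uniform {G : Type} [Group G] [TopologicalSpace G] [IsTopologicalGroup G] [CompactSpace G]
    {n : ℕ} {f : (Fin n → G) → ZMod 2} (hf : IsLocallyConstant f) :
    ∃ W : Set G, W ∈ nhds (1 : G) ∧ ∀ g v : Fin n → G, (∀ i, v i ∈ W) →
      f (fun i => g i * v i) = f g := by
  have hcont : Continuous (fun p : (Fin n → G) × (Fin n → G) => fun i => p.1 i * p.2 i) :=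
    continuous_pi fun i => ((continuous_apply i).comp continuous_fst).mul
      ((continuous_apply i).comp continuous_snd)
  have h1 : IsLocallyConstant (fun p : (Fin n → G) × (Fin n → G) =>
      f (fun i => p.1 i * p.2 i) - f p.1) :=
    (hf.comp_continuous hcont).sub (hf.comp_continuous continuous_fst)
  have hopen : IsOpen {p : (Fin n → G) × (Fin n → G) |
      f (fun i => p.1 i * p.2 i) - f p.1 = 0} := h1.isOpen_fiber 0
  obtain ⟨u, v, hu, hv, hsu, htv, huv⟩ := generalized_tube_lemma
    (isCompact_univ (X := Fin n → G)) (isCompact_singleton (x := (1 : Fin n → G))) hopen (by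
      rintro ⟨a, b⟩ ⟨-, hb⟩
      rw [Set.mem_singleton_iff] at hb
      subst hb
      simp)
  have hvn : v ∈ nhds (1 : Fin n → G) := hv.mem_nhds (htv rfl)
  rw [nhds_pi, Filter.mem_pi] at hvn
  obtain ⟨I, hI, t, ht, htv'⟩ := hvn
  refine ⟨⋂ i, t i, ?_, ?_⟩
  · rw [Filter.iInter_mem]
    exact ht
  · intro g w hw
    have : ((g, w) : (Fin n → G) × (Fin n → G)) ∈ u ×ˢ v := by
      refine ⟨hsu (Set.mem_univ _), htv' ?_⟩
      intro i _
      exact Set.mem_iInter.1 (hw i) i
    have := huv this
    exact sub_eq_zero.1 this

/-- Group-theoretic core: a right-`N`-invariant 3-cochain cannot bound a 4-cochain which is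
nontrivial on the shuffles of four elements commuting modulo `N`. -/
theorem core {G : Type} [Group G] (η : (Fin 3 → G) → ZMod 2) (N : Set G)
    (hη : ∀ g v : Fin 3 → G, (∀ i, v i ∈ N) → η (fun i => g i * v i) = η g)
    (hN1 : (1 : G) ∈ N) (σ : Fin 4 → G) (hσ : ∀ i j, (σ j * σ i)⁻¹ * (σ i * σ j) ∈ N) :
    ∑ π : Equiv.Perm (Fin 4), diff G 2 3 η (fun i => σ (π i)) = 0 := by
  have h2 : ∀ x : ZMod 2, x + x = 0 := by decide
  have hd : ∀ g : Fin 4 → G, diff G 2 3 η g = η (fun i => g i.succ) +
      (η (Fin.contractNth 0 (· * ·) g) + η (Fin.contractNth 1 (· * ·) g) +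
        η (Fin.contractNth 2 (· * ·) g) + η (fun i => g i.castSucc)) := by
    intro g
    have hlast : Fin.contractNth (3 : Fin 4) (· * ·) g = (fun i => g i.castSucc) := by
      funext k
      rw [Fin.contractNth_apply_of_lt]
      exact k.2
    have hm : (-1 : ZMod 2) = 1 := by decide
    simp only [diff, AddMonoidHom.coe_mk, ZeroHom.coe_mk, hm, one_pow, one_mul]
    rw [← hlast]
    exact congrArg (fun z => η (fun i => g i.succ) + z) (Fin.sum_univ_four
      (fun x : Fin 4 => η (x.contractNth (fun x1 x2 => x1 * x2) g)))
  -- the contraction terms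
  have hcontr : ∀ j : Fin 3, ∑ π : Equiv.Perm (Fin 4),
      η (Fin.contractNth j.castSucc (· * ·) (fun i => σ (π i))) = 0 := by
    intro j
    refine Finset.sum_involution (fun π _ => π * Equiv.swap j.castSucc j.succ) ?_ ?_ ?_ ?_
    · intro π _
      have hne : j.castSucc ≠ j.succ := (Fin.castSucc_lt_succ).ne
      have key : η (Fin.contractNth j.castSucc (· * ·)
          (fun i => σ ((π * Equiv.swap j.castSucc j.succ) i))) =
          η (Fin.contractNth j.castSucc (· * ·) (fun i => σ (π i))) := by
        have hg : Fin.contractNth j.castSucc (· * ·)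
            (fun i => σ ((π * Equiv.swap j.castSucc j.succ) i)) =
            fun k => Fin.contractNth j.castSucc (· * ·) (fun i => σ (π i)) k *
              (if k = j then (σ (π j.castSucc) * σ (π j.succ))⁻¹ *
                (σ (π j.succ) * σ (π j.castSucc)) else 1) := by
          funext k
          rcases lt_trichotomy k j with hk | hk | hk
          · have hk' : ((k : ℕ)) < (j.castSucc : Fin 4) := by simpa using hk
            rw [Fin.contractNth_apply_of_lt _ _ _ _ hk', Fin.contractNth_apply_of_lt _ _ _ _ hk',
              if_neg hk.ne, mul_one, Equiv.Perm.mul_apply, Equiv.swap_apply_of_ne_of_ne]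
            · intro h; exact hk.ne (Fin.castSucc_injective _ h)
            · intro h
              have := congrArg Fin.val h
              simp only [Fin.val_castSucc, Fin.val_succ] at this
              have h3 : (k : ℕ) < j := hk
              omega
          · subst hk
            rw [Fin.contractNth_apply_of_eq _ _ _ _ (by simp),
              Fin.contractNth_apply_of_eq _ _ _ _ (by simp), if_pos rfl,
              Equiv.Perm.mul_apply, Equiv.Perm.mul_apply, Equiv.swap_apply_left,
              Equiv.swap_apply_right]
            group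
          · have hk' : ((j.castSucc : Fin 4) : ℕ) < k := by simpa using hk
            rw [Fin.contractNth_apply_of_gt _ _ _ _ hk', Fin.contractNth_apply_of_gt _ _ _ _ hk',
              if_neg hk.ne', mul_one, Equiv.Perm.mul_apply, Equiv.swap_apply_of_ne_of_ne]
            · intro h
              have := congrArg Fin.val h
              simp only [Fin.val_castSucc, Fin.val_succ] at this
              have h3 : (j : ℕ) < k := hk
              omega
            · intro h; exact hk.ne' (Fin.succ_injective _ h)
        rw [hg]
        refine hη _ _ fun k => ?_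
        split_ifs
        · exact hσ _ _
        · exact hN1
      rw [key]
      exact h2 _
    · intro π _ _ h
      have h1 : Equiv.swap j.castSucc j.succ = 1 := by
        have := mul_left_cancel (h.trans (mul_one π).symm)
        exact this
      have h3 := congrArg (fun e : Equiv.Perm (Fin 4) => e j.castSucc) h1
      simp only [Equiv.swap_apply_left, Equiv.Perm.one_apply] at h3
      exact (Fin.castSucc_lt_succ (i := j)).ne h3.symm
    · intro π _
      exact Finset.mem_univ _
    · intro π _
      rw [mul_assoc, Equiv.swap_mul_self, mul_one]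
  -- the outer terms
  have hout : ∑ π : Equiv.Perm (Fin 4), η (fun i => σ (π i.succ)) =
      ∑ π : Equiv.Perm (Fin 4), η (fun i : Fin 3 => σ (π i.castSucc)) := by
    rw [← Equiv.sum_comp (Equiv.mulRight (finRotate 4))
      (fun π : Equiv.Perm (Fin 4) => η (fun i : Fin 3 => σ (π i.castSucc)))]
    refine Finset.sum_congr rfl fun π _ => ?_
    congr 1
    funext i
    congr 1
    simp only [Equiv.coe_mulRight, Equiv.Perm.mul_apply]
    congr 1
    fin_cases i <;> rfl
  have c0 := hcontr 0
  have c1 := hcontr 1
  have c2 := hcontr 2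
  have e0 : (0 : Fin 3).castSucc = (0 : Fin 4) := rfl
  have e1 : (1 : Fin 3).castSucc = (1 : Fin 4) := rfl
  have e2 : (2 : Fin 3).castSucc = (2 : Fin 4) := rfl
  rw [e0] at c0
  rw [e1] at c1
  rw [e2] at c2
  simp only [hd, Finset.sum_add_distrib, c0, c1, c2, hout, zero_add]
  exact h2 _

theorem cyc : S_SYM4 → S_CYC := by
  intro hsym L _ _ b hK h0
  have hcoc := (hsym L).1 (b 0) (b 1) (b 2) (b 3)
  have hgal : IsGalois L (AlgebraicClosure L) := by infer_instance
  have hcob : cup4 (kum (b 0)) (kum (b 1)) (kum (b 2)) (kum (b 3)) ∈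
      coboundaries (Gal L) 2 4 := by
    unfold symb at h0
    rw [dif_pos hcoc] at h0
    exact (QuotientAddGroup.eq_zero_iff (⟨_, hcoc⟩ : cocycles (Gal L) 2 4)).1 h0
  obtain ⟨η, hη, hηd⟩ := hcob
  obtain ⟨W, hW, hWη⟩ := uniform (G := Gal L) (n := 3) hη
  obtain ⟨E, hEf, hEn, hEW⟩ := (krullTopology_mem_nhds_one_iff_of_normal L (AlgebraicClosure L)
    W).1 hW
  -- adjoin the square roots
  let F : IntermediateField L (AlgebraicClosure L) :=
    E ⊔ IntermediateField.adjoin L (Set.range fun i => rt (b i))
  have hFf : FiniteDimensional L F := by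
    have : FiniteDimensional L (IntermediateField.adjoin L (Set.range fun i => rt (b i))) := by
      refine IntermediateField.finiteDimensional_adjoin fun x _ => ?_
      exact Algebra.IsIntegral.isIntegral x
    exact IntermediateField.finiteDimensional_sup _ _
  let K := IntermediateField.normalClosure L F (AlgebraicClosure L)
  have hFK : F ≤ K := F.le_normalClosure
  obtain ⟨σ, hσ1, hσ2⟩ := hK K (normalClosure.is_finiteDimensional L F _)
    (normalClosure.normal L F _) (by
      intro i
      apply hFK
      apply (le_sup_right : IntermediateField.adjoin L (Set.range fun i => rt (b i)) ≤ F)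
      exact IntermediateField.subset_adjoin _ _ ⟨i, rfl⟩)
  have hEK : E ≤ K := le_trans le_sup_left hFK
  have hNW : (K.fixingSubgroup : Set (Gal L)) ⊆ W :=
    le_trans (IntermediateField.fixingSubgroup_antitone hEK) hEW
  have hcore := core η (K.fixingSubgroup : Set (Gal L))
    (fun g v hv => hWη g v fun i => hNW (hv i)) (one_mem K.fixingSubgroup) σ (by
      intro i j
      change _ ∈ K.fixingSubgroup
      rw [IntermediateField.mem_fixingSubgroup_iff]
      intro z hz
      have h1 : (σ i * σ j) z = (σ j * σ i) z := by
        simp only [AlgEquiv.mul_apply]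
        exact hσ1 i j z hz
      rw [AlgEquiv.mul_apply, h1, ← AlgEquiv.mul_apply, inv_mul_cancel, AlgEquiv.one_apply])
  -- the values of the characters
  have hrt : ∀ i, rt (b i) ≠ 0 := by
    intro i h
    have h1 := rt_sq (b i)
    rw [h] at h1
    have h2 : algebraMap L (AlgebraicClosure L) (b i : L) = 0 := by
      rw [← h1]; simp
    exact (b i).ne_zero ((map_eq_zero _).1 h2)
  have hchar : CharZero (AlgebraicClosure L) := charZero_of_injective_algebraMap
    (algebraMap L (AlgebraicClosure L)).injective
  have hk : ∀ i j, kum (b i) (σ j) = if i = j then 1 else 0 := by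
    intro i j
    unfold kum
    rw [hσ2 i j]
    by_cases hij : i = j
    · rw [if_pos hij, if_pos hij, if_neg]
      intro h
      have : rt (b i) = 0 := by
        have h3 : (2 : AlgebraicClosure L) * rt (b i) = 0 := by
          linear_combination (-1 : AlgebraicClosure L) * h
        rcases mul_eq_zero.1 h3 with h4 | h4
        · exact absurd h4 two_ne_zero
        · exact h4
      exact hrt i this
    · rw [if_neg hij, if_neg hij, if_pos rfl]
  have hsum : ∑ π : Equiv.Perm (Fin 4), diff (Gal L) 2 3 η (fun i => σ (π i)) = 1 := by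
    rw [hηd]
    rw [Finset.sum_eq_single (1 : Equiv.Perm (Fin 4))]
    · simp only [cup4, hk, Equiv.Perm.one_apply, if_true, mul_one]
    · intro π _ hπ
      have : ∃ i, i ≠ π i := by
        by_contra hcon
        push Not at hcon
        exact hπ (Equiv.ext fun i => (hcon i).symm)
      obtain ⟨i, hi⟩ := this
      have hz : kum (b i) (σ (π i)) = 0 := by rw [hk, if_neg hi]
      simp only [cup4]
      fin_cases i
      · simp only [Fin.zero_eta] at hz; rw [hz]; ring
      · simp only [Fin.mk_one] at hz; rw [hz]; ring
      · simp only [Fin.reduceFinMk] at hz; rw [hz]; ring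
      · simp only [Fin.reduceFinMk] at hz; rw [hz]; ring
    · intro h
      exact absurd (Finset.mem_univ _) h
  rw [hsum] at hcore
  exact one_ne_zero hcore

end CycPacket

end UnrCoh
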